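import Mathlib

namespace Pool.Agent.H.MP_1efffb_co

open Finset

def syl : ℕ → ℕ → ℕ → ℤ
  | 0, _, _ => 1
  | k + 1, i, j => syl k (i / 2) (j / 2) * (if i % 2 = 1 ∧ j % 2 = 1 then -1 else 1)

lemma syl_pm : ∀ k i j, syl k i j = 1 ∨ syl k i j = -1
  | 0, _, _ => Or.inl rfl
  | k + 1, i, j => by
    unfold syl
    rcases syl_pm k (i / 2) (j / 2) with h | h <;> rw [h] <;> split_ifs <;> simp

lemma syl_symm : ∀ k i j, syl k i j = syl k j i
  | 0, _, _ => rfl
  | k + 1, i, j => by
    unfold syl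
    rw [syl_symm k (i / 2) (j / 2)]
    simp only [and_comm]

lemma syl_zero : ∀ k j, syl k 0 j = 1
  | 0, _ => rfl
  | k + 1, j => by unfold syl; simp [syl_zero k]

lemma sum_two (f : ℕ → ℤ) (m : ℕ) :
    ∑ j ∈ range (2 * m), f j = ∑ b ∈ range m, (f (2 * b) + f (2 * b + 1)) := by
  induction m with
  | zero => simp
  | succ m ih => rw [mul_add, mul_one, sum_range_succ, sum_range_succ, ih, sum_range_succ]; ring

lemma sum_four (f : ℕ → ℤ) (m : ℕ) :
    ∑ j ∈ range (4 * m), f j =
      ∑ b ∈ range m, (f (4 * b) + f (4 * b + 1) + f (4 * b + 2) + f (4 * b + 3)) := by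
  induction m with
  | zero => simp
  | succ m ih =>
    rw [mul_add, mul_one, sum_range_succ, sum_range_succ, sum_range_succ, sum_range_succ, ih,
      sum_range_succ]; ring

lemma syl_orth : ∀ k i i', i < 2 ^ k → i' < 2 ^ k →
    ∑ j ∈ range (2 ^ k), syl k i j * syl k i' j = if i = i' then 2 ^ k else 0
  | 0, i, i', h, h' => by
    have : i = i' := by omega
    simp [syl, this]
  | k + 1, i, i', h, h' => by
    rw [pow_succ] at h h'
    have ih := syl_orth k (i / 2) (i' / 2) (by omega) (by omega)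
    rw [pow_succ, mul_comm, sum_two]
    have e : ∀ b, syl (k + 1) i (2 * b) * syl (k + 1) i' (2 * b) +
        syl (k + 1) i (2 * b + 1) * syl (k + 1) i' (2 * b + 1) =
        (if i % 2 = i' % 2 then 2 else 0) * (syl k (i / 2) b * syl k (i' / 2) b) := by
      intro b
      simp only [syl, show 2 * b / 2 = b by omega, show (2 * b + 1) / 2 = b by omega,
        show 2 * b % 2 = 0 by omega, show (2 * b + 1) % 2 = 1 by omega]
      rcases Nat.mod_two_eq_zero_or_one i with a | a <;>
        rcases Nat.mod_two_eq_zero_or_one i' with a' | a' <;> simp [a, a'] <;> ring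
    simp only [e, ← mul_sum, ih]
    split_ifs <;> first | omega | ring

def hh (k i j : ℕ) : ℤ :=
  syl 2 (i % 4) (j % 4) * syl k (i / 4) (j / 4) * (if i / 4 ≠ 0 ∧ j % 4 ≠ 0 then -1 else 1)

lemma hh_pm (k i j : ℕ) : hh k i j = 1 ∨ hh k i j = -1 := by
  unfold hh
  rcases syl_pm 2 (i % 4) (j % 4) with h | h <;> rcases syl_pm k (i / 4) (j / 4) with h' | h' <;>
    rw [h, h'] <;> split_ifs <;> simp

lemma hh_row (k i i' : ℕ) (h : i < 4 * 2 ^ k) (h' : i' < 4 * 2 ^ k) :
    ∑ j ∈ range (4 * 2 ^ k), hh k i j * hh k i' j = if i = i' then 4 * 2 ^ k else 0 := by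
  have o := syl_orth k (i / 4) (i' / 4) (by omega) (by omega)
  rw [sum_four]
  obtain ⟨c, hc, hc'⟩ : ∃ c : ℤ, (∀ b, hh k i (4 * b) * hh k i' (4 * b) +
      hh k i (4 * b + 1) * hh k i' (4 * b + 1) + hh k i (4 * b + 2) * hh k i' (4 * b + 2) +
      hh k i (4 * b + 3) * hh k i' (4 * b + 3) = c * (syl k (i / 4) b * syl k (i' / 4) b)) ∧
      (i / 4 = i' / 4 → c = if i % 4 = i' % 4 then 4 else 0) := by
    refine ⟨syl 2 (i % 4) 0 * syl 2 (i' % 4) 0 + (syl 2 (i % 4) 1 * syl 2 (i' % 4) 1 +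
      syl 2 (i % 4) 2 * syl 2 (i' % 4) 2 + syl 2 (i % 4) 3 * syl 2 (i' % 4) 3) *
      ((if i / 4 ≠ 0 then -1 else 1) * (if i' / 4 ≠ 0 then -1 else 1)), fun b => ?_, fun e => ?_⟩
    · simp only [hh, show 4 * b / 4 = b by omega, show (4 * b + 1) / 4 = b by omega,
        show (4 * b + 2) / 4 = b by omega, show (4 * b + 3) / 4 = b by omega,
        show 4 * b % 4 = 0 by omega, show (4 * b + 1) % 4 = 1 by omega,
        show (4 * b + 2) % 4 = 2 by omega, show (4 * b + 3) % 4 = 3 by omega]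
      by_cases a : i / 4 = 0 <;> by_cases a' : i' / 4 = 0 <;> simp [a, a'] <;> ring
    · rw [e]
      have : (if i' / 4 ≠ 0 then (-1 : ℤ) else 1) * (if i' / 4 ≠ 0 then -1 else 1) = 1 := by
        split_ifs <;> simp
      rw [this]
      have a := Nat.mod_lt i (by norm_num : 0 < 4)
      have a' := Nat.mod_lt i' (by norm_num : 0 < 4)
      generalize i % 4 = u at a
      generalize i' % 4 = u' at a'
      interval_cases u <;> interval_cases u' <;> decide
  simp only [hc, ← mul_sum, o]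
  by_cases e : i / 4 = i' / 4
  · rw [hc' e, if_pos e]
    split_ifs <;> first | omega | ring
  · rw [if_neg e, if_neg (fun a => e (by rw [a])), mul_zero]

lemma hh_col (k j j' : ℕ) (h : j < 4 * 2 ^ k) (h' : j' < 4 * 2 ^ k) :
    ∑ i ∈ range (4 * 2 ^ k), hh k i j * hh k i j' = if j = j' then 4 * 2 ^ k else 0 := by
  have o := syl_orth k (j / 4) (j' / 4) (by omega) (by omega)
  rw [sum_four]
  have hc : ∀ b, hh k (4 * b) j * hh k (4 * b) j' + hh k (4 * b + 1) j * hh k (4 * b + 1) j' +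
      hh k (4 * b + 2) j * hh k (4 * b + 2) j' + hh k (4 * b + 3) j * hh k (4 * b + 3) j' =
      (if j % 4 = j' % 4 then 4 else 0) * (syl k (j / 4) b * syl k (j' / 4) b) := by
    intro b
    simp only [hh, show 4 * b / 4 = b by omega, show (4 * b + 1) / 4 = b by omega,
      show (4 * b + 2) / 4 = b by omega, show (4 * b + 3) / 4 = b by omega,
      show 4 * b % 4 = 0 by omega, show (4 * b + 1) % 4 = 1 by omega,
      show (4 * b + 2) % 4 = 2 by omega, show (4 * b + 3) % 4 = 3 by omega, syl_symm k b]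
    have a := Nat.mod_lt j (by norm_num : 0 < 4)
    have a' := Nat.mod_lt j' (by norm_num : 0 < 4)
    generalize j % 4 = u at a
    generalize j' % 4 = u' at a'
    by_cases e : b = 0 <;> interval_cases u <;> interval_cases u' <;> simp [syl, e] <;> ring
  simp only [hc, ← mul_sum, o]
  split_ifs <;> first | omega | ring

def xx (i : ℕ) : ℤ := if i % 4 = 0 then -1 else 1

lemma xx_col (k j : ℕ) (h : j < 4 * 2 ^ k) :
    ∑ i ∈ range (4 * 2 ^ k), xx i * hh k i j - ∑ i ∈ range 4, xx i * hh k i j =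
      if j / 4 = 0 then 2 * 2 ^ k - 2 else -2 := by
  have o := syl_orth k 0 (j / 4) (by positivity) (by omega)
  simp only [syl_zero, one_mul] at o
  rw [sum_four]
  have a := Nat.mod_lt j (by norm_num : 0 < 4)
  have hc : ∀ b, xx (4 * b) * hh k (4 * b) j + xx (4 * b + 1) * hh k (4 * b + 1) j +
      xx (4 * b + 2) * hh k (4 * b + 2) j + xx (4 * b + 3) * hh k (4 * b + 3) j =
      2 * syl k (j / 4) b + if b = 0 then (∑ i ∈ range 4, xx i * hh k i j - 2) else 0 := by
    intro b
    simp only [hh, xx, sum_range_succ, show 4 * b / 4 = b by omega, show (4 * b + 1) / 4 = b by omega,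
      show (4 * b + 2) / 4 = b by omega, show (4 * b + 3) / 4 = b by omega,
      show 4 * b % 4 = 0 by omega, show (4 * b + 1) % 4 = 1 by omega,
      show (4 * b + 2) % 4 = 2 by omega, show (4 * b + 3) % 4 = 3 by omega, syl_symm k (j / 4)]
    generalize j % 4 = u at a
    by_cases e : b = 0 <;> interval_cases u <;> simp [syl, e, syl_zero] <;> ring
  simp only [hc, sum_add_distrib, ← mul_sum, o, sum_ite_eq', mem_range]
  rw [if_pos (by positivity : 0 < 2 ^ k)]
  by_cases e : j / 4 = 0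
  · rw [if_pos e.symm, if_pos e]; ring
  · rw [if_neg (Ne.symm e), if_neg e]; ring

lemma first_four (k : ℕ) : ∑ i ∈ range 4, hh k i 0 * hh k i 4 = 4 := by
  simp [sum_range_succ, hh, syl, syl_zero]

lemma ham {ι : Type} [Fintype ι] (x y : ι → ℤ) (hx : ∀ i, x i = 1 ∨ x i = -1)
    (hy : ∀ i, y i = 1 ∨ y i = -1) :
    ∑ i, x i * y i = Fintype.card ι - 2 * (hammingDist x y : ℤ) := by
  unfold hammingDist
  rw [card_filter, ← card_univ, card_eq_sum_ones]
  push_cast
  rw [mul_sum, ← sum_sub_distrib]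
  refine sum_congr rfl (fun i _ => ?_)
  rcases hx i with a | a <;> rcases hy i with b | b <;> simp [a, b]

lemma sum_sub (n : ℕ) (hn : 4 ≤ n) (f : ℕ → ℤ) :
    ∑ i : {i : Fin n // 4 ≤ i.val}, f i.1.val = ∑ i ∈ range n, f i - ∑ i ∈ range 4, f i := by
  rw [← sum_subtype (s := univ.filter (fun i : Fin n => 4 ≤ i.val)) (by simp) (fun i => f i.val),
    sum_filter, Fin.sum_univ_eq_sum_range (fun i => if 4 ≤ i then f i else 0) n, ← sum_filter,
    ← sum_Ico_eq_sub f hn]
  refine sum_congr ?_ (fun _ _ => rfl)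
  ext i; simp; omega

end Pool.Agent.H.MP_1efffb_co
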